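import Pool.Agent.LE.StmtsQE

set_option autoImplicit false

open MeasureTheory ProbabilityTheory Function Filter

open scoped ENNReal BigOperators Topology NNReal ComplexOrder Matrix

noncomputable section

namespace Pool.Agent.LE.QD.H52

open Pool.Agent.Anderson hiding box mem_box card_box
open Pool.Agent.Loc Pool.Agent.Mob Pool.Agent.Helper54.Bal
  Pool.Agent.Helper96.EXP Pool.Agent.BED
open Pool.Agent.LE.MN Pool.Agent.LE.CL Pool.Agent.LE.IR

theorem norm_sub_z (x : ℝ) (ζ : ℂ) : ‖(x : ℂ) - ζ‖ = Real.sqrt ((x - ζ.re) ^ 2 + ζ.im ^ 2) := by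
  rw [← Complex.normSq_add_mul_I (x - ζ.re) (ζ.im), ← Complex.sq_norm,
    Real.sqrt_sq (norm_nonneg _)]
  have h : ((x - ζ.re : ℝ) : ℂ) + (ζ.im : ℂ) * Complex.I = (starRingEnd ℂ) ((x : ℂ) - ζ) := by
    apply Complex.ext <;> simp
  rw [h, RCLike.norm_conj]

theorem im_inv_sub (x : ℝ) (ζ : ℂ) :
    (((x : ℂ) - ζ)⁻¹).im = ζ.im / ((x - ζ.re) ^ 2 + ζ.im ^ 2) := by
  rw [Complex.inv_im, Complex.normSq_apply]
  simp only [Complex.sub_im, Complex.ofReal_im, Complex.sub_re, Complex.ofReal_re]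
  congr 1
  · ring
  · ring

theorem sce (ral : RalStmt) (dsu : DsuStmt) (dsl : DslStmt) : SceStmt := by
  intro d δ hd hδ
  obtain ⟨C₁, hC₁, h1⟩ := dsu d hd
  obtain ⟨cL, CL, hcL, hcL1, hCL, h2⟩ := dsl d (δ / 2) hd (by positivity)
  have hC₁0 : 0 < C₁ := by linarith
  have hCL0 : 0 < CL := by linarith
  set c : ℝ := min (cL / (4 * C₁)) (δ / (4 * C₁)) with hc
  have hc0 : 0 < c := by positivity
  have hc1 : C₁ * c ≤ cL / 4 := by
    have : c ≤ cL / (4 * C₁) := min_le_left _ _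
    calc C₁ * c ≤ C₁ * (cL / (4 * C₁)) := by gcongr
      _ = cL / 4 := by field_simp
  have hc2 : C₁ * c ≤ δ / 4 := by
    have : c ≤ δ / (4 * C₁) := min_le_right _ _
    calc C₁ * c ≤ C₁ * (δ / (4 * C₁)) := by gcongr
      _ = δ / 4 := by field_simp
  have hc3 : c ≤ cL / 4 := by nlinarith
  refine ⟨c, max (2 * C₁) CL, hc0, by linarith, le_max_of_le_right hCL, ?_⟩
  intro M _ v E η s₀ g ζ s hE hη hηc hv hM hg hvg hvl hs₀ hsl hs hζ hgd
  set l := 1 + Real.log (1 / η) with hl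
  have hη1 : η ≤ 1 := by linarith
  have hl1 : 1 ≤ l := by
    have : 0 ≤ Real.log (1 / η) := Real.log_nonneg (by rw [le_div_iff₀ hη]; linarith)
    linarith
  have hre : ζ.re = E + v * g.re := by
    rw [hζ]
    simp
  have him : ζ.im = η + v * g.im := by
    rw [hζ]
    simp
  have hw0 : η ≤ ζ.im := by
    rw [him]
    nlinarith
  have hwp : 0 < ζ.im := by linarith
  have hw1 : ζ.im ≤ 2 * c := by
    rw [him]
    linarith
  have hMw : max (2 * C₁) CL / ζ.im ≤ M := by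
    refine le_trans ?_ hM
    gcongr
  have hM1 : C₁ / ζ.im ≤ M := by
    refine le_trans ?_ hMw
    have : C₁ ≤ max (2 * C₁) CL := le_max_of_le_left (by linarith)
    gcongr
  have hM2 : CL / ζ.im ≤ M := by
    refine le_trans ?_ hMw
    have : CL ≤ max (2 * C₁) CL := le_max_right _ _
    gcongr
  obtain ⟨k1, k2⟩ := h1 M ζ.re ζ.im hwp (by linarith) hM1
  have hlw : 1 + Real.log (1 / ζ.im) ≤ l := by
    rw [hl]
    have : Real.log (1 / ζ.im) ≤ Real.log (1 / η) := by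
      apply Real.log_le_log (by positivity)
      gcongr
    linarith
  have hlw0 : C₁ * (1 + Real.log (1 / ζ.im)) ≤ C₁ * l := by gcongr
  have hMd : (0 : ℝ) < (M : ℝ) ^ d := by
    have : 0 < M := Nat.pos_of_ne_zero (NeZero.ne M)
    positivity
  obtain ⟨-, -, -, -, r5, -, -, -, -, -, r11, -⟩ := ral d M (0 : Tor d M → ℝ) ζ hwp
  set g₀ := rs (0 : Tor d M → ℝ) ζ 0 0 with hg₀
  have hcast : ((M : ℂ)) ^ d = (((M : ℝ) ^ d : ℝ) : ℂ) := by push_cast; rfl
  have hg₀e : g₀ = (∑ p : Tor d M, ((es p : ℂ) - ζ)⁻¹) / (M : ℂ) ^ d := by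
    rw [hg₀, r11 0 0]
    congr 1
    refine Finset.sum_congr rfl fun p _ => ?_
    have : ec p (0 - 0 : Tor d M) = 1 := by
      unfold ec
      simp
    rw [this, one_div]
  have hg₀im : g₀.im = pm (fun p : Tor d M => ζ.im / ((es p - ζ.re) ^ 2 + ζ.im ^ 2)) := by
    rw [hg₀e, hcast, Complex.div_ofReal_im, Complex.im_sum]
    unfold pm
    congr 1
    exact Finset.sum_congr rfl fun p _ => im_inv_sub _ _
  have hinv : ∀ p : Tor d M, ‖((es p : ℂ) - ζ)⁻¹‖ =
      (Real.sqrt ((es p - ζ.re) ^ 2 + ζ.im ^ 2))⁻¹ := fun p => by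
    rw [norm_inv, norm_sub_z]
  have hdiff : ‖g - g₀‖ ≤ s₀ * (C₁ * l) := by
    have e1 : g - g₀ = (∑ p : Tor d M, s p * ((es p : ℂ) - ζ)⁻¹) / (M : ℂ) ^ d := by
      rw [hgd, hg₀e, ← sub_div, ← Finset.sum_sub_distrib]
      congr 1
      refine Finset.sum_congr rfl fun p _ => ?_
      rw [div_eq_mul_inv]
      ring
    rw [e1, hcast, norm_div, Complex.norm_real, Real.norm_of_nonneg hMd.le, div_le_iff₀ hMd]
    calc ‖∑ p : Tor d M, s p * ((es p : ℂ) - ζ)⁻¹‖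
        ≤ ∑ p : Tor d M, ‖s p * ((es p : ℂ) - ζ)⁻¹‖ := norm_sum_le _ _
      _ ≤ ∑ p : Tor d M, s₀ * (Real.sqrt ((es p - ζ.re) ^ 2 + ζ.im ^ 2))⁻¹ := by
          refine Finset.sum_le_sum fun p _ => ?_
          rw [norm_mul, hinv]
          gcongr
          exact hs p
      _ = s₀ * (pm (fun p : Tor d M => (Real.sqrt ((es p - ζ.re) ^ 2 + ζ.im ^ 2))⁻¹) *
            (M : ℝ) ^ d) := by
          unfold pm
          rw [div_mul_cancel₀ _ hMd.ne', Finset.mul_sum]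
      _ ≤ s₀ * (C₁ * l * (M : ℝ) ^ d) := by
          gcongr
          exact k2.trans hlw0
      _ = s₀ * (C₁ * l) * (M : ℝ) ^ d := by ring
  have hg₀n : ‖g₀‖ ≤ C₁ * l := by
    rw [hg₀e, hcast, norm_div, Complex.norm_real, Real.norm_of_nonneg hMd.le, div_le_iff₀ hMd]
    calc ‖∑ p : Tor d M, ((es p : ℂ) - ζ)⁻¹‖
        ≤ ∑ p : Tor d M, ‖((es p : ℂ) - ζ)⁻¹‖ := norm_sum_le _ _
      _ = pm (fun p : Tor d M => (Real.sqrt ((es p - ζ.re) ^ 2 + ζ.im ^ 2))⁻¹) *
            (M : ℝ) ^ d := by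
          unfold pm
          rw [div_mul_cancel₀ _ hMd.ne']
          exact Finset.sum_congr rfl fun p _ => hinv p
      _ ≤ C₁ * l * (M : ℝ) ^ d := by
          gcongr
          exact k2.trans hlw0
  have hsc : s₀ * (C₁ * l) ≤ C₁ * c := by
    calc s₀ * (C₁ * l) = C₁ * (s₀ * l) := by ring
      _ ≤ C₁ * c := by gcongr
  have hgn : ‖g‖ ≤ 2 * (C₁ * l) := by
    have e1 : ‖g‖ ≤ ‖g - g₀‖ + ‖g₀‖ := by
      have : g = (g - g₀) + g₀ := by ring
      calc ‖g‖ = ‖(g - g₀) + g₀‖ := by rw [← this]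
        _ ≤ _ := norm_add_le _ _
    have e2 : C₁ * c ≤ C₁ * l := by
      gcongr
      linarith
    linarith
  have hrb : |ζ.re| ≤ 2 * d - δ / 2 := by
    rw [hre]
    have e1 : |g.re| ≤ ‖g‖ := Complex.abs_re_le_norm g
    have e2 : |v * g.re| ≤ 2 * (C₁ * c) := by
      rw [abs_mul, abs_of_nonneg hv]
      calc v * |g.re| ≤ v * (2 * (C₁ * l)) := by
            gcongr
            exact e1.trans hgn
        _ = 2 * (C₁ * (v * l)) := by ring
        _ ≤ 2 * (C₁ * c) := by gcongr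
    have e3 := abs_add_le E (v * g.re)
    linarith
  have hlow := h2 M ζ.re ζ.im 0 ⟨0, by omega⟩ hrb hwp (by linarith) hM2
  have hg₀l : cL / 2 ≤ g₀.im := by
    rw [hg₀im]
    have e1 : pm (fun p : Tor d M => if |es p - ζ.re| ≤ ζ.im then
        Real.sin (2 * Real.pi * ((p ⟨0, by omega⟩).valMinAbs : ℝ) / M - 0) ^ 2 else 0) ≤
        2 * ζ.im * pm (fun p : Tor d M => ζ.im / ((es p - ζ.re) ^ 2 + ζ.im ^ 2)) := by
      unfold pm
      rw [← mul_div_assoc, Finset.mul_sum]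
      refine div_le_div_of_nonneg_right (Finset.sum_le_sum fun p _ => ?_) hMd.le
      have e2 : 0 < (es p - ζ.re) ^ 2 + ζ.im ^ 2 := by positivity
      split_ifs with h
      · have e3 : (es p - ζ.re) ^ 2 ≤ ζ.im ^ 2 := by
          rw [← sq_abs (es p - ζ.re)]
          gcongr
        calc Real.sin (2 * Real.pi * ((p ⟨0, by omega⟩).valMinAbs : ℝ) / M - 0) ^ 2 ≤ 1 :=
              Real.sin_sq_le_one _
          _ ≤ 2 * ζ.im * (ζ.im / ((es p - ζ.re) ^ 2 + ζ.im ^ 2)) := by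
              rw [← mul_div_assoc, le_div_iff₀ e2]
              nlinarith
      · positivity
    have e2 := hlow.trans e1
    have e3 : cL * ζ.im = 2 * ζ.im * (cL / 2) := by ring
    rw [e3] at e2
    exact le_of_mul_le_mul_left e2 (by positivity)
  have hg₀u : g₀.im ≤ C₁ := by
    rw [hg₀im]
    exact k1
  have himd : |g.im - g₀.im| ≤ s₀ * (C₁ * l) := by
    rw [← Complex.sub_im]
    exact (Complex.abs_im_le_norm _).trans hdiff
  obtain ⟨a1, a2⟩ := abs_le.1 himd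
  have hCC : C₁ ≤ max (2 * C₁) CL := le_max_of_le_left (by linarith)
  have hCC2 : 2 * C₁ ≤ max (2 * C₁) CL := le_max_left _ _
  refine ⟨hrb, ⟨by linarith, by nlinarith⟩, ?_, ⟨by linarith, by linarith⟩, ?_⟩
  · refine himd.trans ?_
    calc s₀ * (C₁ * l) = C₁ * (s₀ * l) := by ring
      _ ≤ max (2 * C₁) CL * (s₀ * l) := by gcongr
      _ = max (2 * C₁) CL * s₀ * l := by ring
  · exact r5 0

end Pool.Agent.LE.QD.H52
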